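import Pool.Agent.W2helper23.SG.Stm

/-!
# Project SG (helper23): the relation between the three quadratic subfields of a dihedral
extension (piece SG7)
-/

set_option autoImplicit false
set_option linter.unusedSectionVars false

namespace Pool.Agent.W2helper69.SG

open NumberField NumberField.ComplexEmbedding Pool.Agent.R389 Pool.Agent.K4H74.ST
open Pool.Agent.H302R2 Pool.Agent.H302R3 Pool.Agent.H541R3.ART Pool.Agent.W446.AS
open Pool.Agent.W2helper23.SG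

/-- the relation from the character of the kernel of `s * η` -/
theorem main {M : Type} [CommGroup M] {B : ArtinInvariant M} (hC : TrivComplex B) (hLin : LinOK B)
    {F N : Type} [Field F] [NumberField F] [Field N] [NumberField N] [Algebra F N] [IsGalois F N]
    {j : N} (hj : j * j = -1) {s : (N ≃ₐ[F] N) →* ℂˣ} (hs : Sg s) {t : N ≃ₐ[F] N}
    {m : (N ≃ₐ[F] N) → ℂˣ} (hm1 : ∀ a, s a = 1 → m a = 1 ∨ m a = -1)
    (hX : ∀ x ∈ CC F N, s x = 1 → ¬ (m x = -1 ∧ m (t⁻¹ * x * t) = -1))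
    {η : (N ≃ₐ[F] N) →* ℂˣ} (hηs : Sg η) {u : N ≃ₐ[F] N} (hu : (s * η) u = -1)
    (hm2 : ∀ x, s x = 1 → η x = 1 → m (t⁻¹ * x * t) = m x)
    (H : Subgroup (N ≃ₐ[F] N)) (hH : H = (s * η).ker) (ψ : H →* ℂˣ)
    (hψ4 : ∀ g, ψ g ^ (2 ^ 2) = 1) (hψ1 : ∀ g : H, s g = 1 → ψ g = m g)
    (hψ2 : ∀ g : H, s g = -1 → ψ g ^ 2 = -1)
    (hind : ind H (fun h => ((ψ h : ℂˣ) : ℂ)) = ind s.ker (fun h => ((m h : ℂˣ) : ℂ))) :
    ind s.ker (fun h => ((m h : ℂˣ) : ℂ)) - (lc 1 + lc (s * η)) ∈ TT B (K := F) (L := N) ⊥ := by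
  classical
  have hfin : FiniteDimensional F N := Module.Finite.of_restrictScalars_finite ℚ F N
  have hsη : Sg (s * η) := hs.mul hηs
  -- the field
  let E := IntermediateField.fixedField H
  let e : H ≃* (N ≃ₐ[E] N) := IntermediateField.subgroupEquivAlgEquiv H
  let ψ' : (N ≃ₐ[E] N) →* ℂˣ := ψ.comp e.symm.toMonoidHom
  have hψ'4 : ∀ g, ψ' g ^ (2 ^ 2) = 1 := fun g => hψ4 (e.symm g)
  obtain ⟨N₁, i1, i2, i3, i4, i5, i6, ε, hε, hεc, hval⟩ := hLin E N ψ' 2 hψ'4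
  -- the values at the complex conjugations
  have hψc : ∀ c ∈ CC E N, ψ' c = 1 := by
    rintro c ⟨φ, hφ⟩
    have hc4 : ∀ x, ((e.symm c : H) : N ≃ₐ[F] N) x = c x := by
      intro x
      have h5 : ∀ h : H, (e h) x = (h : N ≃ₐ[F] N) x := fun h => rfl
      rw [← h5, MulEquiv.apply_symm_apply]
    set h : H := e.symm c with hh
    have hconj : IsConj φ (h : N ≃ₐ[F] N) := by
      ext x
      have h3 := hφ.eq x
      change star (φ x) = φ ((h : N ≃ₐ[F] N) x)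
      rw [hc4, h3]
    have hXh : (h : N ≃ₐ[F] N) ∈ CC F N := ⟨φ, hconj⟩
    have hsq : h * h = 1 := Subtype.ext (isConj_sq hconj)
    have hψsq : ψ h ^ 2 = 1 := by
      rw [pow_two, ← map_mul, hsq, map_one]
    have hs1 : s h = 1 := by
      refine (hs h).resolve_right fun hneg => ?_
      have h7 := hψ2 h hneg
      rw [hψsq] at h7
      exact neg_one_ne h7.symm
    have hη1 : η (h : N ≃ₐ[F] N) = 1 := by
      have h8 : (s * η) (h : N ≃ₐ[F] N) = 1 := by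
        have h10 : (h : N ≃ₐ[F] N) ∈ (s * η).ker := by rw [← hH]; exact h.2
        exact h10
      rw [MonoidHom.mul_apply, hs1, one_mul] at h8
      exact h8
    have hm3 : m h = 1 := by
      refine (hm1 h hs1).resolve_right fun hneg => ?_
      exact hX h hXh hs1 ⟨hneg, by rw [hm2 _ hs1 hη1, hneg]⟩
    change ψ h = 1
    rw [hψ1 h hs1, hm3]
  have hε1 : ∀ c ∈ CC E N₁, ε c = 1 := by
    intro c hc
    rw [hεc c hc]
    exact hψc _ (CC_res hc)
  -- the sign character `ε` has the value of the trivial character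
  have hj' : algebraMap N N₁ j * algebraMap N N₁ j = -1 := by
    rw [← map_mul, hj, map_neg, map_one]
  obtain ⟨s₀, hs₀, hodd⟩ := odd_i (K := E) hj'
  have hfin1 : FiniteDimensional E N₁ := Module.Finite.of_restrictScalars_finite ℚ E N₁
  have hJ := even_JJ (X := CC E N₁) hs₀ hodd hε hε1 1
  have h1ε : (1 : (N₁ ≃ₐ[E] N₁) →* ℂˣ) * ε = ε := by
    ext g
    rw [MonoidHom.mul_apply, MonoidHom.one_apply, one_mul]
  rw [h1ε] at hJ
  have hv1 : B.val E N₁ (lc ε) = B.val E N₁ (lc 1) :=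
    val_eq_of_sub B (IsChar.lc _) (IsChar.lc _) (JJ_le hC hJ)
  have hv2 : B.val E N₁ (lc 1) = B.val E N (lc 1) :=
    val_lin_res (A := B) (K := E) (L := N) (N := N₁) 1
  -- induction
  have hi1 : ind H (fun h => ((ψ h : ℂˣ) : ℂ)) = indChar F E N (lc ψ') := ind_fixed H _
  have hi2 : ind H (fun h => lc (1 : (N ≃ₐ[F] N) →* ℂˣ) h) = indChar F E N (lc 1) := ind_fixed H _
  have hi3 : ind H (fun h => lc (1 : (N ≃ₐ[F] N) →* ℂˣ) h) = lc 1 + lc (1 * (s * η)) := by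
    subst hH
    exact ind_two' hsη hu 1
  have h1s : (1 : (N ≃ₐ[F] N) →* ℂˣ) * (s * η) = s * η := by
    ext g
    rw [MonoidHom.mul_apply, MonoidHom.one_apply, one_mul]
  rw [h1s] at hi3
  have hχ : IsChar (ind s.ker (fun h => ((m h : ℂˣ) : ℂ))) := by
    rw [← hind]
    exact IsChar.ind_lin H ψ
  have hχ' : IsChar (lc (1 : (N ≃ₐ[F] N) →* ℂˣ) + lc (s * η)) :=
    (IsChar.lc _).add (IsChar.lc _)
  have hA : B.val F N (ind s.ker (fun h => ((m h : ℂˣ) : ℂ))) = B.val E N (lc ψ') := by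
    rw [← hind, hi1]
    exact B.val_ind F E N (lc ψ') (IsChar.lc ψ')
  have hB : B.val F N (lc (1 : (N ≃ₐ[F] N) →* ℂˣ) + lc (s * η)) = B.val E N (lc 1) := by
    rw [← hi3, hi2]
    exact B.val_ind F E N (lc 1) (IsChar.lc 1)
  refine ⟨1, Subgroup.mem_bot.mpr rfl, _, _, hχ, hχ', rfl, ?_⟩
  rw [hA, hB, hval, hv1, hv2, div_self']

/-- SG7 from SG5 -/
theorem SG7 (h5 : P_SG5) : P_SG7 := by
  intro M _ B hC hLin F N _ _ _ _ _ _ j hj s hs t ht m hm hm1 hX u hu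
  have hfin : FiniteDimensional F N := Module.Finite.of_restrictScalars_finite ℚ F N
  obtain ⟨ψ, hψ4, hψ1, hψ2, hind⟩ := h5 (N ≃ₐ[F] N) s hs t ht m hm hm1 u hu
  refine main hC hLin hj hs hm1 hX (etaHom_sg hs ht hm hm1) hu (fun x hx hη => ?_) _ rfl ψ hψ4 hψ1
    hψ2 hind
  have h9 := e_eq hs ht hm hm1 hη
  rw [e1_pos hx, e2_pos hx] at h9
  exact h9

end Pool.Agent.W2helper69.SG
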